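import Mathlib
import Pool.Agent.H.MP_24213f_lc.A

set_option autoImplicit false

namespace Pool.Agent.Results.MP_24213f_lc.Yes

open Cardinal Pool.Agent.H.MP_24213f_lc

theorem result (h1 : ℵ₁ < pp) (h2 : covM = 𝔠) :
    (∃ X Y, Dn X ∧ Dn Y ∧ SA X Y ∧ SA Y X) ∧ ¬ ∃ X Y, Dn X ∧ Dn Y ∧ TA X Y ∧ TA Y X :=
  ⟨strong h2, fun ⟨_, _, a, b, c, _⟩ => total h1 a b c⟩

end Pool.Agent.Results.MP_24213f_lc.Yes
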